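import Mathlib

namespace Pool.Agent.Results.MP_9da05b_an.Counter
open Set Filter Topology MeasureTheory Real

section Defs
variable {T : NNReal} {E U : Type} [NormedAddCommGroup E] [NormedSpace ℝ E] [NormedAddCommGroup U]

/-- the state space of continuous histories on `[-T, 0]` with the sup norm -/
abbrev X (T : NNReal) (E : Type) [NormedAddCommGroup E] := C(Icc (-(T : ℝ)) 0, E)

/-- the value of a history at `s`, with `s` clamped to `[-T, 0]` -/
noncomputable def ev (x : X T E) (s : ℝ) : E := x (projIcc _ _ (neg_nonpos.2 T.2) s)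

omit [NormedSpace ℝ E] in
@[fun_prop] lemma ev_cont {A : Type} [TopologicalSpace A] {x : A → X T E} {s : A → ℝ}
    (h : Continuous x) (g : Continuous s) : Continuous fun a => ev (x a) (s a) :=
  h.eval (continuous_projIcc.comp g)

/-- the history `x` shifted by `t` and continued with slope `F` -/
noncomputable def star (x : X T E) (F : E) (t : ℝ) : X T E :=
  ⟨fun s => ev x (s + t) + max (s + t : ℝ) 0 • F, by fun_prop⟩

/-- the Driver derivative -/
noncomputable def driver (f : X T E → U → E) (V : X T E → ℝ) (x : X T E) (v : U) : EReal :=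
  limsup (fun t : ℝ => (((V (star x (f x v) t) - V x) / t : ℝ) : EReal)) (𝓝[>] 0)

/-- the upper right Dini derivative -/
noncomputable def dini (w : ℝ → ℝ) (t : ℝ) : EReal :=
  limsup (fun h : ℝ => (((w (t + h) - w t) / h : ℝ) : EReal)) (𝓝[>] 0)

/-- `φ` is the state trajectory of a solution on `[0, b)` for the input `u` -/
def Sol (f : X T E → U → E) (u : ℝ → U) (b : ℝ) (φ : ℝ → X T E) : Prop :=
  ∃ z : ℝ → E, ∀ t ∈ Ico 0 b, (∀ s : Icc (-(T : ℝ)) 0, φ t s = z (t + s)) ∧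
    IntervalIntegrable (fun τ => f (φ τ) (u τ)) volume 0 t ∧
    z t = z 0 + ∫ τ in (0 : ℝ)..t, f (φ τ) (u τ)

/-- essentially bounded measurable inputs on the half line -/
def Inp (u : ℝ → U) : Prop := MemLp u ⊤ (volume.restrict (Ici 0))

/-- the regularity condition -/
def Reg (f : X T E → U → E) (V : X T E → ℝ) : Prop :=
  ∀ u, Inp u → ∀ b φ, Sol f u b φ →
    (∀ c ∈ Ico 0 b, AbsolutelyContinuousOnInterval (fun t => V (φ t)) 0 c) ∧
    ∀ᵐ t, t ∈ Ico 0 b → dini (fun t => V (φ t)) t = driver f V (φ t) (u t)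

/-- class K -/
def K (α : ℝ → ℝ) : Prop := ContinuousOn α (Ici 0) ∧ StrictMonoOn α (Ici 0) ∧ α 0 = 0

/-- class K-infinity -/
def Kinf (α : ℝ → ℝ) : Prop := K α ∧ Tendsto α atTop atTop

/-- class KL -/
def KL (β : ℝ → ℝ → ℝ) : Prop :=
  (∀ t, 0 ≤ t → K (β · t)) ∧ ∀ r, 0 ≤ r → AntitoneOn (β r) (Ici 0) ∧ Tendsto (β r) atTop (𝓝 0)

/-- the ISS estimate along all solutions defined on the whole half line -/
def ISS (f : X T E → U → E) : Prop :=
  ∃ β γ, KL β ∧ Kinf γ ∧ ∀ u, Inp u → ∀ φ, (∀ b, Sol f u b φ) → ∀ t, 0 ≤ t →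
    ‖ev (φ t) 0‖ ≤ β ‖φ 0‖ t + γ (eLpNorm u ⊤ (volume.restrict (Ici 0))).toReal

end Defs

/-- the plane -/
abbrev E := EuclideanSpace ℝ (Fin 2)

/-- the delay -/
noncomputable def T : NNReal := ⟨π / 2, by positivity⟩

/-- smooth part of the vector field -/
noncomputable def G (p : ℝ × ℝ × ℝ × ℝ × ℝ) : E := !₂[-p.1 + p.2.2.2.1 * (p.1 - p.2.2.1),
  p.2.1 * (-5 + p.2.2.2.2 * ((1 + p.2.2.1 ^ 2) / (1 + (1 + p.2.2.1 ^ 2) * p.1 ^ 2)))]

/-- the vector field in terms of present value, delayed value and input -/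
noncomputable def g (p : E × E × ℝ) : E :=
  G (p.1 0, p.1 1, p.2.1 0, min (p.1 1 ^ 2) 1, max (p.2.2 ^ 2 - p.1 1 ^ 2) 0)

/-- the system -/
noncomputable def f (x : X T E) (v : ℝ) : E := g (ev x 0, ev x (-T), v)

/-- the integral term -/
noncomputable def I (x : X T E) : ℝ := ∫ s in (-T : ℝ)..0, ev x s 0 ^ 2

/-- the functional -/
noncomputable def V (x : X T E) : ℝ :=
  ev x 0 0 ^ 2 + ev x 0 1 ^ 2 + ev x 0 1 ^ 2 * (ev x 0 0 ^ 2 + 2 * I x)

/-- its derivative -/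
noncomputable def D (p q : E) (J : ℝ) (F : E) : ℝ := 2 * p 0 * F 0 * (1 + p 1 ^ 2) +
  2 * p 1 * F 1 * (1 + p 0 ^ 2 + 2 * J) + 2 * p 1 ^ 2 * (p 0 ^ 2 - q 0 ^ 2)

/-- the integral term along a curve -/
noncomputable def J (z : ℝ → E) (t : ℝ) : ℝ := ∫ s in (t - T)..t, z s 0 ^ 2

/-- the functional along a curve -/
noncomputable def W (z : ℝ → E) (t : ℝ) : ℝ :=
  z t 0 ^ 2 + z t 1 ^ 2 + z t 1 ^ 2 * (z t 0 ^ 2 + 2 * J z t)

lemma T0 : -(T : ℝ) ≤ 0 := neg_nonpos.2 T.2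

lemma g_lip : LocallyLipschitz g := by
  have a : ContDiff ℝ 1 G := by
    refine contDiff_euclidean.2 fun i => ?_
    fin_cases i <;> simp only [G] <;> simp
    · fun_prop
    · fun_prop (disch := intros; positivity)
  have b : ∀ h : E × E × ℝ → ℝ, ContDiff ℝ 1 h → LocallyLipschitz h := fun _ => ContDiff.locallyLipschitz
  exact a.locallyLipschitz.comp ((b _ (by fun_prop)).prodMk ((b _ (by fun_prop)).prodMk
    ((b _ (by fun_prop)).prodMk (((b _ (by fun_prop)).min_const 1).prodMk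
      ((b _ (by fun_prop)).max_const 0)))))

lemma ev_le (x : X T E) (s : ℝ) : ‖ev x s‖ ≤ ‖x‖ := x.norm_coe_le_norm _

lemma f_lip (R : ℝ) : ∃ L : ℝ, ∀ x y v, ‖x‖ ≤ R → ‖y‖ ≤ R → ‖v‖ ≤ R →
    ‖f x v - f y v‖ ≤ L * ‖x - y‖ := by
  obtain ⟨L, h⟩ := (g_lip.locallyLipschitzOn (s := Metric.closedBall 0 R)
    ).exists_lipschitzOnWith_of_compact (isCompact_closedBall _ _)
  have m : ∀ (x : X T E) (v : ℝ), ‖x‖ ≤ R → ‖v‖ ≤ R →
      (ev x 0, ev x (-T), v) ∈ Metric.closedBall 0 R := fun x v a b =>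
    mem_closedBall_zero_iff.2 (max_le ((ev_le x _).trans a) (max_le ((ev_le x _).trans a) b))
  refine ⟨L, fun x y v a b c => (h.norm_sub_le (m x v a c) (m y v b c)).trans
    (mul_le_mul_of_nonneg_left (max_le (ev_le (x - y) _) (max_le (ev_le (x - y) _) ?_)) L.2)⟩
  simp

lemma nrm (p : E) : ‖p‖ ^ 2 = p 0 ^ 2 + p 1 ^ 2 := by
  simp [EuclideanSpace.norm_sq_eq]

lemma I_bd (x : X T E) : 0 ≤ I x ∧ I x ≤ 2 * ‖x‖ ^ 2 := by
  refine ⟨intervalIntegral.integral_nonneg T0 fun _ _ => sq_nonneg _, ?_⟩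
  have := (le_abs_self _).trans (intervalIntegral.norm_integral_le_of_norm_le_const
    (a := -T) (b := 0) (f := fun s => ev x s 0 ^ 2) (C := ‖x‖ ^ 2) fun s _ => by
      rw [Real.norm_of_nonneg (sq_nonneg _)]
      nlinarith [nrm (ev x s), pow_le_pow_left₀ (norm_nonneg _) (ev_le x s) 2])
  rw [sub_neg_eq_add, zero_add, NNReal.abs_eq] at this
  exact this.trans (by nlinarith [show (T : ℝ) = π / 2 from rfl, pi_le_four])

lemma J_der {z : ℝ → E} (h : Continuous z) (t : ℝ) :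
    HasDerivAt (J z) (z t 0 ^ 2 - z (t - T) 0 ^ 2) t := by
  have c : Continuous fun s => z s 0 ^ 2 := by fun_prop
  have a := fun t => (c.integral_hasStrictDerivAt 0 t).hasDerivAt
  have e : J z = fun t => (∫ s in (0 : ℝ)..t, z s 0 ^ 2) - ∫ s in (0 : ℝ)..(t - T), z s 0 ^ 2 :=
    funext fun t => (intervalIntegral.integral_interval_sub_left (c.intervalIntegrable _ _)
      (c.intervalIntegrable _ _)).symm
  exact e ▸ (a t).sub ((a (t - T)).comp_sub_const t T)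

lemma W_der {z : ℝ → E} (h : Continuous z) {t : ℝ} {F : E} (d : HasDerivWithinAt z F (Ioi t) t) :
    Tendsto (fun h => (((W z (t + h) - W z t) / h : ℝ) : EReal)) (𝓝[>] 0)
      (𝓝 (D (z t) (z (t - T)) (J z t) F : ℝ)) := by
  have a : ∀ i, HasDerivWithinAt (fun t => z t i) (F i) (Ioi t) t := fun i =>
    (EuclideanSpace.proj i : E →L[ℝ] ℝ).hasFDerivAt.comp_hasDerivWithinAt t d
  have b : HasDerivWithinAt (W z) (D (z t) (z (t - T)) (J z t) F) (Ioi t) t :=
    ((((a 0).pow 2).add ((a 1).pow 2)).add (((a 1).pow 2).mul (((a 0).pow 2).add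
      ((J_der h t).hasDerivWithinAt.const_mul 2)))).congr_deriv (by simp [D]; ring)
  have c : Tendsto (t + ·) (𝓝[>] 0) (𝓝[>] t) := tendsto_nhdsWithin_iff.2
    ⟨((continuous_const_add t).tendsto' 0 t (add_zero t)).mono_left nhdsWithin_le_nhds,
      eventually_nhdsWithin_of_forall fun _ e => lt_add_of_pos_right t e⟩
  refine EReal.tendsto_coe.2 ((((hasDerivWithinAt_iff_tendsto_slope' self_notMem_Ioi).1 b).comp
    c).congr fun h => ?_)
  simp [slope_def_field]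

lemma seg {x : X T E} {z : ℝ → E} {t : ℝ} (h : ∀ s : Icc (-(T : ℝ)) 0, x s = z (t + s)) :
    ev x 0 = z t ∧ ev x (-T) = z (t - T) ∧ I x = J z t ∧ V x = W z t := by
  have a : ∀ s ∈ Icc (-(T : ℝ)) 0, ev x s = z (t + s) := fun s e => by rw [ev, h, projIcc_of_mem _ e]
  have b : ev x 0 = z t := by simpa using a 0 ⟨T0, le_rfl⟩
  have c : I x = J z t := by
    rw [I, intervalIntegral.integral_congr (g := fun s => z (t + s) 0 ^ 2) fun s e => by
      rw [uIcc_of_le T0] at e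
      simp [a s e], intervalIntegral.integral_comp_add_left (fun s => z s 0 ^ 2), add_zero]
    rfl
  exact ⟨b, a _ ⟨le_rfl, T0⟩, c, by rw [V, b, c, W]⟩

lemma drv (x : X T E) (v : ℝ) : driver f V x v = (D (ev x 0) (ev x (-T)) (I x) (f x v) : ℝ) := by
  let z : ℝ → E := fun s => ev x s + max s 0 • f x v
  obtain ⟨a, b, c, d⟩ := seg (x := x) (z := z) (t := 0) fun s => by
    simp [z, ev, max_eq_right s.2.2]
  rw [a, b, c]
  refine ((W_der (by fun_prop) ?_).congr fun h => ?_).limsup_eq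
  · refine ((((hasDerivAt_id' (0 : ℝ)).smul_const (f x v)).const_add (ev x 0)).hasDerivWithinAt.congr
      (fun s e => ?_) (by simp [z])).congr_deriv (one_smul _ _)
    simp only [z, ev, max_eq_left (mem_Ioi.1 e).le, projIcc_of_right_le _ (mem_Ioi.1 e).le,
      projIcc_right]
  · rw [d, zero_add, (seg (x := star x (f x v) h) (z := z) (t := h) fun s => by
      simp only [z, add_comm h]
      rfl).2.2.2]

lemma dis (x : X T E) (v : ℝ) (h : 2 * ‖v‖ ≤ ‖ev x 0‖) :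
    D (ev x 0) (ev x (-T)) (I x) (f x v) ≤ -‖ev x 0‖ ^ 2 := by
  have h := pow_le_pow_left₀ (by positivity) h 2
  have i := (I_bd x).1
  rw [mul_pow, norm_eq_abs, sq_abs, nrm] at h
  simp only [nrm, D, f, g, G, Matrix.cons_val_zero, Matrix.cons_val_one]
  generalize ev x 0 0 = a at *
  generalize ev x 0 1 = y at *
  generalize ev x (-T) 0 = d
  have s0 : 0 ≤ min (y ^ 2) 1 := by positivity
  have s1 : min (y ^ 2) 1 * (1 + y ^ 2) ≤ 2 * y ^ 2 := by
    nlinarith [min_le_left (y ^ 2) 1, mul_le_mul_of_nonneg_right (min_le_right (y ^ 2) 1) (sq_nonneg y)]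
  have p : max (v ^ 2 - y ^ 2) 0 * ((1 + d ^ 2) / (1 + (1 + d ^ 2) * a ^ 2)) ≤ 1 := by
    rw [← mul_div_assoc, div_le_one (by positivity)]
    nlinarith [mul_le_mul_of_nonneg_right (max_le (by nlinarith) (sq_nonneg a) :
      max (v ^ 2 - y ^ 2) 0 ≤ a ^ 2) (show 0 ≤ 1 + d ^ 2 by positivity)]
  generalize max (v ^ 2 - y ^ 2) 0 * ((1 + d ^ 2) / (1 + (1 + d ^ 2) * a ^ 2)) = S at *
  generalize min (y ^ 2) 1 = σ at *
  nlinarith [mul_le_mul_of_nonneg_right p (show 0 ≤ y ^ 2 * (1 + a ^ 2 + 2 * I x) by positivity),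
    mul_le_mul_of_nonneg_right s1 (show 0 ≤ 3 * a ^ 2 + d ^ 2 by positivity),
    mul_nonneg (show 0 ≤ σ * (1 + y ^ 2) by positivity) (sq_nonneg (a + d)),
    mul_nonneg (sq_nonneg y) i, mul_nonneg (sq_nonneg y) (sq_nonneg a)]

lemma ac_congr {p q : ℝ → ℝ} {a b : ℝ} (h : AbsolutelyContinuousOnInterval p a b)
    (e : ∀ t ∈ uIcc a b, q t = p t) : AbsolutelyContinuousOnInterval q a b := by
  simpa using h.add (LipschitzOnWith.absolutelyContinuousOnInterval (f := q - p) (K := 0)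
    (LipschitzOnWith.of_dist_le_mul fun s x t y => by simp [e s x, e t y]))

lemma reg : Reg f V := fun u _ b φ ⟨z, h⟩ => by
  have k : ∀ c ∈ Ico 0 b, ∃ (y F : ℝ → E), Continuous y ∧ Integrable F ∧
      (∀ t, 0 ≤ t → y t = y 0 + ∫ τ in (0 : ℝ)..t, F τ) ∧ (∀ t ∈ Ioc 0 c, F t = f (φ t) (u t)) ∧
      ∀ t ∈ Icc 0 c, ∀ s : Icc (-(T : ℝ)) 0, φ t s = y (t + s) := fun c e => by
    have i := (integrable_indicator_iff measurableSet_Ioc).2 (h c e).2.1.1
    have z0 := (h 0 ⟨le_rfl, e.1.trans_lt e.2⟩).1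
    have e0 : ∀ t, 0 ≤ t → ev (φ 0) t = z 0 := fun t a => by
      simp [ev, projIcc_of_right_le _ a, z0]
    refine ⟨fun t => ev (φ 0) t + ∫ τ in (0 : ℝ)..t, (Ioc 0 c).indicator (fun τ => f (φ τ) (u τ)) τ,
      _, (by fun_prop : Continuous fun t => ev (φ 0) t).add (i.continuous_primitive 0), i,
      fun t a => by simp [e0 t a, e0 0 le_rfl], fun t a => indicator_of_mem a _, fun t a s => ?_⟩
    rw [(h t ⟨a.1, a.2.trans_lt e.2⟩).1]
    beta_reduce
    rcases le_total (t + s) 0 with m | m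
    · rw [intervalIntegral.integral_congr (g := fun _ => 0) fun τ n => indicator_of_notMem
        (fun o => o.1.not_ge ((uIcc_of_ge m ▸ n : τ ∈ Icc _ _).2)) _, ev, z0,
        projIcc_of_mem _ ⟨by linarith [a.1, s.2.1], m⟩]
      simp
    · have n : t + s ≤ c := by linarith [a.2, s.2.2]
      rw [e0 _ m, (h _ ⟨m, n.trans_lt e.2⟩).2.2]
      exact congrArg _ (intervalIntegral.integral_congr_ae (Eventually.of_forall fun τ o =>
        (indicator_of_mem (Ioc_subset_Ioc_right n (uIoc_of_le m ▸ o))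
          fun τ => f (φ τ) (u τ)).symm))
  refine ⟨fun c e => ?_, ?_⟩
  · obtain ⟨y, F, a1, a2, a3, -, a4⟩ := k c e
    have p : ∀ i, AbsolutelyContinuousOnInterval (fun t => y t i) 0 c := fun i => ac_congr
      ((contDiffOn_const (c := y 0 i)).absolutelyContinuousOnInterval.add
        ((((EuclideanSpace.proj i : E →L[ℝ] ℝ).integrable_comp a2).intervalIntegrable
          ).absolutelyContinuousOnInterval_intervalIntegral left_mem_uIcc)) fun t m => by
        rw [a3 t (uIcc_of_le e.1 ▸ m : t ∈ Icc _ _).1, Pi.add_apply,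
          ContinuousLinearMap.intervalIntegral_comp_comm _ a2.intervalIntegrable]
        rfl
    have q : ContDiff ℝ 1 (J y) := contDiff_one_iff_deriv.2 ⟨fun t => (J_der a1 t).differentiableAt,
      (funext fun t => (J_der a1 t).deriv : deriv (J y) = _) ▸ by fun_prop⟩
    exact ac_congr ((((p 0).mul (p 0)).add ((p 1).mul (p 1))).add (((p 1).mul (p 1)).mul
      (((p 0).mul (p 0)).add (q.contDiffOn.absolutelyContinuousOnInterval.const_mul 2))))
      fun t m => by simp [(seg (a4 t (uIcc_of_le e.1 ▸ m))).2.2.2, W, sq]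
  have m : ∀ c : ℚ, ∀ᵐ t : ℝ, (c : ℝ) < b → t ∈ Ioo 0 (c : ℝ) →
      dini (fun t => V (φ t)) t = driver f V (φ t) (u t) := fun c => by
    by_cases e : (c : ℝ) ∈ Ico 0 b
    · obtain ⟨y, F, a1, a2, a3, a4, a5⟩ := k c e
      filter_upwards [LocallyIntegrable.ae_hasDerivAt_integral a2.locallyIntegrable] with t d _ n
      obtain ⟨b1, b2, b3, b4⟩ := seg (a5 t ⟨n.1.le, n.2.le⟩)
      rw [drv, b1, b2, b3, ← a4 t ⟨n.1, n.2.le⟩]
      refine ((W_der a1 (((d 0).const_add (y 0)).hasDerivWithinAt.congr (fun s o => a3 s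
        (n.1.trans o).le) (a3 t n.1.le))).congr' ?_).limsup_eq
      filter_upwards [Ioo_mem_nhdsGT (sub_pos.2 n.2)] with s o
      rw [b4, (seg (a5 (t + s) ⟨by linarith [n.1, o.1], by linarith [o.2]⟩)).2.2.2]
    · exact Eventually.of_forall fun t n o => (e ⟨(o.1.trans o.2).le, n⟩).elim
  filter_upwards [ae_all_iff.2 m, compl_mem_ae_iff.2 (measure_singleton (0 : ℝ))] with t a n e
  obtain ⟨c, c1, c2⟩ := exists_rat_btwn e.2
  exact a c c2 ⟨e.1.lt_of_ne' n, c1⟩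

lemma alg {s c M : ℝ} (e : s ^ 2 + c ^ 2 = 1) (a : c ^ 2 + M * s ^ 2 ≠ 0)
    (b : c ^ 2 + M ^ 2 * s ^ 2 ≠ 0) : 5 * (1 / (1 + ((M - 1) * (s * c) / (c ^ 2 + M * s ^ 2)) ^ 2) *
      (((M - 1) * (c * c + s * -s) * (c ^ 2 + M * s ^ 2) - (M - 1) * (s * c) *
        (2 * c * -s + M * (2 * s * c))) / (c ^ 2 + M * s ^ 2) ^ 2)) =
      -5 + 5 * M / (c ^ 2 + M ^ 2 * s ^ 2) := by
  rw [show 1 + ((M - 1) * (s * c) / (c ^ 2 + M * s ^ 2)) ^ 2 =
    (c ^ 2 + M ^ 2 * s ^ 2) / (c ^ 2 + M * s ^ 2) ^ 2 by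
      field_simp
      linear_combination (c ^ 2 + M ^ 2 * s ^ 2) * e]
  field_simp
  linear_combination ((M - 1) * (c ^ 2 - M * s ^ 2) + M) * e

lemma orbit {B : ℝ} (hB : 1 ≤ B) : ∃ (u : ℝ → ℝ) (φ : ℝ → X T E), Continuous u ∧
    (∀ t, ‖u t‖ ≤ exp 16 + 5) ∧ (∀ b, Sol f u b φ) ∧ ∀ t, ev (φ t) 0 0 = B * sin t := by
  have k : 1 ≤ B ^ 2 := one_le_pow₀ hB
  have p : ∀ {M : ℝ}, 1 ≤ M → ∀ t, 0 < cos t ^ 2 + M * sin t ^ 2 := fun h t => by
    nlinarith [sin_sq_add_cos_sq t, mul_le_mul_of_nonneg_right h (sq_nonneg (sin t))]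
  have p1 := p k
  have p2 := p (one_le_pow₀ (n := 2) k)
  let y : ℝ → ℝ := fun t =>
    exp (8 + 5 * arctan ((B ^ 2 - 1) * (sin t * cos t) / (cos t ^ 2 + B ^ 2 * sin t ^ 2)))
  let c : ℝ → ℝ := fun t => 5 * B ^ 2 / (cos t ^ 2 + (B ^ 2) ^ 2 * sin t ^ 2)
  let P : ℝ → ℝ := fun t => c t * ((1 + (1 + (B * cos t) ^ 2) * (B * sin t) ^ 2) / (1 + (B * cos t) ^ 2))
  have y1 : ∀ t, 1 ≤ y t ∧ y t ≤ exp 16 := fun t =>
    ⟨one_le_exp (by linarith [neg_pi_div_two_lt_arctan ((B ^ 2 - 1) * (sin t * cos t) /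
      (cos t ^ 2 + B ^ 2 * sin t ^ 2)), pi_lt_d2]), exp_le_exp.2 (by
      linarith [arctan_lt_pi_div_two ((B ^ 2 - 1) * (sin t * cos t) /
      (cos t ^ 2 + B ^ 2 * sin t ^ 2)), pi_lt_d2])⟩
  have y2 : ∀ t, HasDerivAt y (y t * (-5 + c t)) t := fun t => by
    refine ((((((hasDerivAt_sin t).mul (hasDerivAt_cos t)).const_mul (B ^ 2 - 1)).div
      (((hasDerivAt_cos t).pow 2).add (((hasDerivAt_sin t).pow 2).const_mul (B ^ 2)))
      (p1 t).ne').arctan.const_mul 5).const_add 8).exp.congr_deriv (congrArg _ ?_)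
    simpa using alg (sin_sq_add_cos_sq t) (p1 t).ne' (p2 t).ne'
  have P1 : ∀ t, 0 ≤ P t ∧ P t ≤ 25 := fun t => ⟨by
    have := p2 t
    positivity, by
    simp only [P, c]
    rw [div_mul_div_comm, div_le_iff₀ (mul_pos (p2 t) (by positivity)), mul_pow, mul_pow]
    have e := sin_sq_add_cos_sq t
    have s := sq_nonneg (sin t)
    have r := sq_nonneg (cos t)
    generalize sin t ^ 2 = S at *
    generalize cos t ^ 2 = C at *
    generalize B ^ 2 = M at *
    have M0 : 0 ≤ M := by linarith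
    nlinarith [mul_nonneg M0 (sq_nonneg (C - 1 / 2)), mul_nonneg M0 r, mul_nonneg (mul_nonneg M0 s)
      (sub_nonneg.2 k), mul_nonneg (mul_nonneg (mul_nonneg M0 M0) (mul_nonneg M0 s)) r,
      mul_nonneg M0 (mul_nonneg r r)]⟩
  have cy : Continuous y := continuous_iff_continuousAt.2 fun t => (y2 t).continuousAt
  have cc : Continuous c := continuous_const.div (by fun_prop) fun t => (p2 t).ne'
  have cP : Continuous P := cc.mul (Continuous.div (by fun_prop) (by fun_prop) fun t => by positivity)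
  let z : ℝ → E := fun t => !₂[B * sin t, y t]
  let φ : ℝ → X T E := fun t => ⟨fun s => z (t + s), by fun_prop⟩
  have s := fun t => seg (x := φ t) (z := z) (t := t) fun _ => rfl
  have e : ∀ t, f (φ t) √(y t ^ 2 + P t) = !₂[B * cos t, y t * (-5 + c t)] := fun t => by
    rw [f, (s t).1, (s t).2.1]
    simp only [g, G, z, Matrix.cons_val_zero, Matrix.cons_val_one, show (T : ℝ) = π / 2 from rfl,
      sin_sub_pi_div_two, min_eq_right (one_le_pow₀ (y1 t).1), mul_neg, neg_sq,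
      sq_sqrt (add_nonneg (sq_nonneg _) (P1 t).1), add_sub_cancel_left, max_eq_left (P1 t).1]
    congr 4
    · ring
    · simp only [P]
      field_simp
  refine ⟨fun t => √(y t ^ 2 + P t), φ, by fun_prop, fun t => ?_, fun b => ⟨z, fun t _ =>
    ⟨fun _ => rfl, ?_, ?_⟩⟩, fun t => by rw [(s t).1]; rfl⟩
  · rw [Real.norm_of_nonneg (sqrt_nonneg _), sqrt_le_left (by positivity)]
    nlinarith [y1 t, P1 t]
  · simp only [e]
    exact Continuous.intervalIntegrable (by fun_prop) _ _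
  · simp only [e]
    rw [intervalIntegral.integral_eq_sub_of_hasDerivAt (f := z)
      (f' := fun t => !₂[B * cos t, y t * (-5 + c t)]) (fun t _ =>
      (PiLp.continuousLinearEquiv 2 ℝ fun _ : Fin 2 => ℝ).symm.hasFDerivAt.comp_hasDerivAt t
        (f := fun t => ![B * sin t, y t]) (f' := ![B * cos t, y t * (-5 + c t)])
        (hasDerivAt_pi.2 fun i => by
          fin_cases i
          exacts [(hasDerivAt_sin t).const_mul B, y2 t]))
      (Continuous.intervalIntegrable (by fun_prop) _ _), add_sub_cancel]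

theorem result : ∃ (T : NNReal) (f : X T E → ℝ → E) (V : X T E → ℝ) (ψ₁ ψ₂ α χ : ℝ → ℝ), 0 < T ∧
    Continuous (fun p : X T E × ℝ => f p.1 p.2) ∧
    (∀ R : ℝ, ∃ L : ℝ, ∀ x y v, ‖x‖ ≤ R → ‖y‖ ≤ R → ‖v‖ ≤ R → ‖f x v - f y v‖ ≤ L * ‖x - y‖) ∧
    f 0 0 = 0 ∧ Continuous V ∧ (∀ x, 0 ≤ V x) ∧ Reg f V ∧ Kinf ψ₁ ∧ Kinf ψ₂ ∧ Kinf α ∧ K χ ∧
    (∀ x, ψ₁ ‖ev x 0‖ ≤ V x ∧ V x ≤ ψ₂ ‖x‖) ∧
    (∀ x v, χ ‖v‖ ≤ ‖ev x 0‖ → driver f V x v ≤ (-α ‖ev x 0‖ : ℝ)) ∧ ¬ISS f := by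
  have k : Kinf (· ^ 2) := ⟨⟨by fun_prop, pow_left_strictMonoOn₀ two_ne_zero, by simp⟩,
    tendsto_pow_atTop two_ne_zero⟩
  have l : ∀ x, ‖ev x 0‖ ^ 2 ≤ V x := fun x => nrm _ ▸ le_add_of_nonneg_right
    (mul_nonneg (sq_nonneg _) (by linarith [(I_bd x).1, sq_nonneg (ev x 0 0)]))
  refine ⟨T, f, V, (· ^ 2), fun r => r ^ 2 + 5 * r ^ 4, (· ^ 2), (2 * ·), half_pos pi_pos,
    g_lip.continuous.comp (by fun_prop), f_lip, ?_, ?_, fun x => (sq_nonneg _).trans (l x), reg, k,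
    ⟨⟨by fun_prop, fun a e b _ h => add_lt_add_of_lt_of_le (pow_lt_pow_left₀ h e two_ne_zero)
      (by linarith [pow_le_pow_left₀ e h.le 4]), by simp⟩, tendsto_atTop_mono
      (fun _ => le_add_of_nonneg_right (by positivity)) k.2⟩, k,
    ⟨by fun_prop, fun a _ b _ h => by linarith, by simp⟩, fun x => ⟨l x, ?_⟩,
    fun x v h => drv x v ▸ EReal.coe_le_coe_iff.2 (dis x v h), ?_⟩
  · ext i
    fin_cases i <;> simp [f, g, G, ev]
  · have : Continuous I :=
      intervalIntegral.continuous_parametric_intervalIntegral_of_continuous' (by fun_prop) _ _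
    unfold V
    fun_prop
  · have a := pow_le_pow_left₀ (norm_nonneg _) (ev_le x 0) 2
    rw [nrm] at a
    have := mul_le_mul (show ev x 0 1 ^ 2 ≤ ‖x‖ ^ 2 by nlinarith)
      (show ev x 0 0 ^ 2 + 2 * I x ≤ 5 * ‖x‖ ^ 2 by nlinarith [(I_bd x).2])
      (by linarith [(I_bd x).1, sq_nonneg (ev x 0 0)]) (sq_nonneg _)
    unfold V
    linarith
  rintro ⟨β, γ, ⟨-, b1⟩, ⟨⟨-, b2, b3⟩, -⟩, b4⟩
  have c : 0 ≤ exp 16 + 5 := by positivity
  have c1 := b2.monotoneOn self_mem_Ici c c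
  obtain ⟨u, φ, a1, a2, a3, a4⟩ := orbit (B := γ (exp 16 + 5) + 1) (by linarith)
  obtain ⟨n, e⟩ := (((b1 _ (norm_nonneg (φ 0))).2.comp (tendsto_atTop_add_const_left _ (π / 2)
    (tendsto_natCast_atTop_atTop.atTop_mul_const two_pi_pos))).eventually
      (gt_mem_nhds one_pos)).exists
  have d := b4 u (memLp_top_of_bound a1.aestronglyMeasurable _ (Eventually.of_forall a2)) φ a3
    (π / 2 + n * (2 * π)) (by positivity)
  have d1 := (le_abs_self _).trans ((PiLp.norm_apply_le _ 0).trans d)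
  rw [a4, sin_add_nat_mul_two_pi, sin_pi_div_two] at d1
  rw [eLpNorm_exponent_top] at d1
  linarith [b2.monotoneOn ENNReal.toReal_nonneg c (ENNReal.toReal_le_of_le_ofReal c
    (eLpNormEssSup_le_of_ae_bound (μ := volume.restrict (Ici 0)) (Eventually.of_forall a2))),
    show β ‖φ 0‖ (π / 2 + n * (2 * π)) < 1 from e]

end Pool.Agent.Results.MP_9da05b_an.Counter
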